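import Pool.Agent.Y264.QR.Stm
import Pool.Agent.Y363.QE.Bs
import Pool.Agent.Y469.QE.Mul

/-!
# Project QR, part FM: the forms of the metrics `exp φ · g`
-/

set_option autoImplicit false

open Set Filter Topology MeasureTheory
open scoped Real ContDiff

noncomputable section

namespace Pool.Agent.Y419.QR

open Pool.Agent.Y262.QE Pool.Agent.Y264.QR Pool.Agent.Y363.QE

/-- Gram-Schmidt for a form which is positive on the span of a sequence -/
theorem gs {H : Type} [NormedAddCommGroup H] [InnerProductSpace ℝ H] (b : H →L[ℝ] H →L[ℝ] ℝ)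
    (sb : ∀ u v, b u v = b v u) (nb : ∀ v, 0 ≤ b v v) (e : ℕ → H)
    (hd : ∀ x : ℕ →₀ ℝ, b (Finsupp.linearCombination ℝ e x) (Finsupp.linearCombination ℝ e x) = 0 →
      x = 0) :
    ∃ e' : ℕ → H, ∀ m m', b (e' m) (e' m') = if m = m' then 1 else 0 := by
  obtain ⟨L, hL⟩ : ∃ L : (ℕ →₀ ℝ) →ₗ[ℝ] H, L = Finsupp.linearCombination ℝ e := ⟨_, rfl⟩
  let core : InnerProductSpace.Core ℝ (ℕ →₀ ℝ) :=
    { inner := fun x y => b (L x) (L y)
      conj_inner_symm := fun x y => by
        simp only [conj_trivial]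
        exact sb _ _
      re_inner_nonneg := fun x => by
        simp only [RCLike.re_to_real]
        exact nb _
      add_left := fun x y z => by
        show b (L (x + y)) (L z) = b (L x) (L z) + b (L y) (L z)
        rw [map_add, map_add]
        rfl
      smul_left := fun x y r => by
        show b (L (r • x)) (L y) = (starRingEnd ℝ) r * b (L x) (L y)
        rw [map_smul, map_smul]
        rfl
      definite := fun x hx => by
        apply hd
        rw [← hL]
        exact hx }
  let _ : NormedAddCommGroup (ℕ →₀ ℝ) := core.toNormedAddCommGroup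
  let _ : InnerProductSpace ℝ (ℕ →₀ ℝ) := InnerProductSpace.ofCore core.toCore
  have hli : LinearIndependent ℝ (fun m : ℕ => (Finsupp.single m (1 : ℝ) : ℕ →₀ ℝ)) :=
    (Finsupp.basisSingleOne (R := ℝ) (ι := ℕ)).linearIndependent
  have ho := InnerProductSpace.gramSchmidtNormed_orthonormal hli
  refine ⟨fun m => L (InnerProductSpace.gramSchmidtNormed ℝ
    (fun m : ℕ => (Finsupp.single m (1 : ℝ) : ℕ →₀ ℝ)) m), fun m m' => ?_⟩
  exact orthonormal_iff_ite.1 ho m m'

theorem fm : StFm := by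
  intro M _ _ _ _ μ _ H _ _ i a hS
  -- bounds of the weights
  have habs : ∀ (φ : C(M, ℝ)) (x : M), |φ x| ≤ ‖φ‖ := fun φ x => by
    rw [← Real.norm_eq_abs]
    exact φ.norm_coe_le_norm x
  have hup : ∀ (φ : C(M, ℝ)) x, Real.exp (φ x) ≤ Real.exp ‖φ‖ := fun φ x =>
    Real.exp_le_exp.2 ((le_abs_self _).trans (habs φ x))
  have hlo : ∀ (φ : C(M, ℝ)) x, Real.exp (-‖φ‖) ≤ Real.exp (φ x) := fun φ x =>
    Real.exp_le_exp.2 (neg_le_of_abs_le (habs φ x))
  have hwm : ∀ φ : C(M, ℝ), Measurable fun x => Real.exp (φ x) := fun φ =>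
    (Real.continuous_exp.comp φ.continuous).measurable
  have hkm : ∀ h φ : C(M, ℝ), Measurable fun x => h x * Real.exp (φ x) := fun h φ =>
    h.continuous.measurable.mul (hwm φ)
  have hwC : ∀ (φ : C(M, ℝ)) x, |Real.exp (φ x)| ≤ Real.exp ‖φ‖ := fun φ x => by
    rw [abs_of_pos (Real.exp_pos _)]
    exact hup φ x
  have hkC : ∀ (h φ : C(M, ℝ)) x, |h x * Real.exp (φ x)| ≤ ‖h‖ * Real.exp ‖φ‖ := fun h φ x => by
    rw [abs_mul]
    exact mul_le_mul (habs h x) (hwC φ x) (abs_nonneg _) (norm_nonneg _)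
  -- the forms
  have hb : ∀ φ : C(M, ℝ), ∃ b : H →L[ℝ] H →L[ℝ] ℝ,
      ∀ u v, b u v = ∫ x, Real.exp (φ x) * (i u x * i v x) ∂μ := by
    intro φ
    obtain ⟨B, hB⟩ := Pool.Agent.Y469.QE.mul M μ (fun x => Real.exp (φ x)) (hwm φ) _ (hwC φ)
    refine ⟨B.bilinearComp i i, fun u v => ?_⟩
    rw [ContinuousLinearMap.bilinearComp_apply, hB]
  have hk : ∀ h φ : C(M, ℝ), ∃ k : H →L[ℝ] H →L[ℝ] ℝ,
      ∀ u v, k u v = ∫ x, h x * Real.exp (φ x) * (i u x * i v x) ∂μ := by
    intro h φ
    obtain ⟨B, hB⟩ := Pool.Agent.Y469.QE.mul M μ (fun x => h x * Real.exp (φ x)) (hkm h φ) _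
      (hkC h φ)
    refine ⟨B.bilinearComp i i, fun u v => ?_⟩
    rw [ContinuousLinearMap.bilinearComp_apply, hB]
  choose b hb using hb
  -- comparison with the norm
  have hbu : ∀ φ v, b φ v v ≤ Real.exp ‖φ‖ * ‖i v‖ ^ 2 := by
    intro φ v
    rw [hb, norm_eq, ← integral_const_mul]
    exact mono_w (hwm φ) (hwC φ) measurable_const (C' := Real.exp ‖φ‖)
      (fun x => by rw [abs_of_pos (Real.exp_pos _)]) (hup φ) (i v)
  have hbl : ∀ φ v, Real.exp (-‖φ‖) * ‖i v‖ ^ 2 ≤ b φ v v := by
    intro φ v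
    rw [hb, norm_eq, ← integral_const_mul]
    exact mono_w measurable_const (C := Real.exp (-‖φ‖))
      (fun x => by rw [abs_of_pos (Real.exp_pos _)]) (hwm φ) (hwC φ) (hlo φ) (i v)
  have hnb : ∀ φ v, 0 ≤ b φ v v := fun φ v =>
    (mul_nonneg (Real.exp_pos _).le (sq_nonneg _)).trans (hbl φ v)
  have hsb : ∀ φ u v, b φ u v = b φ v u := by
    intro φ u v
    rw [hb, hb]
    refine integral_congr_ae (Eventually.of_forall fun x => ?_)
    simp only
    ring
  -- multiplying the functionals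
  have hsc : ∀ (Q : ℝ), 0 ≤ Q → ∀ (N : ℕ) (l : Fin N → H →L[ℝ] ℝ) (v : H),
      ∑ j, ((√Q • l j) v) ^ 2 = Q * ∑ j, (l j v) ^ 2 := by
    intro Q hQ N l v
    rw [Finset.mul_sum]
    refine Finset.sum_congr rfl fun j _ => ?_
    rw [smul_apply, smul_eq_mul, mul_pow, Real.sq_sqrt hQ]
  obtain ⟨C, hC⟩ := hS.wy
  obtain ⟨e, he⟩ := hS.inf
  have hmu : μ ≠ 0 := by
    intro h0
    have h1 := he 0 0
    rw [if_pos rfl, inner_eq] at h1
    have h2 : ∀ f : M → ℝ, ∫ x, f x ∂μ = 0 := by
      intro f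
      rw [h0]
      exact integral_zero_measure _
    rw [h2] at h1
    exact zero_ne_one h1
  refine ⟨b, hb, ?_, ?_, ?_, ?_⟩
  · intro φ
    have hQ0 : 0 < Real.exp ‖φ‖ := Real.exp_pos _
    have hE0 : 0 < Real.exp (-‖φ‖) := Real.exp_pos _
    refine ⟨hS.sa, hsb φ, hS.na, hnb φ, ⟨Real.exp (-‖φ‖), hE0, ?_⟩, ?_, ?_⟩
    · intro v
      have h1 := hbl φ v
      have h2 := hS.na v
      have h3 : Real.exp (-‖φ‖) ≤ 1 := Real.exp_le_one_iff.2 (by linarith [norm_nonneg φ])
      have h4 : Real.exp (-‖φ‖) * a v v ≤ 1 * a v v := mul_le_mul_of_nonneg_right h3 h2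
      rw [hS.nm v, mul_add]
      linarith
    · intro ε hε
      obtain ⟨ε', hε'⟩ : ∃ ε' : ℝ, ε' = min 1 (ε * Real.exp (-‖φ‖)) := ⟨_, rfl⟩
      have e1 : 0 < ε' := by rw [hε']; exact lt_min one_pos (by positivity)
      have e2 : ε' ≤ 1 := by rw [hε']; exact min_le_left _ _
      have e3 : Real.exp ‖φ‖ * ε' ≤ ε := by
        have h1 : ε' ≤ ε * Real.exp (-‖φ‖) := by rw [hε']; exact min_le_right _ _
        have h2 := mul_le_mul_of_nonneg_left h1 hQ0.le
        have h3 : Real.exp ‖φ‖ * (ε * Real.exp (-‖φ‖)) = ε := by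
          rw [Real.exp_neg]
          field_simp
        linarith
      obtain ⟨N, l, -, hl⟩ := hC ε' e1 e2
      refine ⟨N, fun j => √(Real.exp ‖φ‖) • l j, fun v => ?_⟩
      rw [hsc _ hQ0.le]
      have h1 := hbu φ v
      have h2 := mul_le_mul_of_nonneg_left (hl v) hQ0.le
      have h3 : Real.exp ‖φ‖ * ε' * a v v ≤ ε * a v v :=
        mul_le_mul_of_nonneg_right e3 (hS.na v)
      have h4 : a v v ≤ ‖v‖ ^ 2 := by
        rw [hS.nm v]
        linarith [sq_nonneg ‖i v‖]
      have h5 := mul_le_mul_of_nonneg_left h4 hε.le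
      have h6 : Real.exp ‖φ‖ * (ε' * a v v + ∑ j, (l j v) ^ 2) =
          Real.exp ‖φ‖ * ε' * a v v + Real.exp ‖φ‖ * ∑ j, (l j v) ^ 2 := by ring
      linarith
    · refine gs (b φ) (hsb φ) (hnb φ) e fun x hx => ?_
      have h1 := hbl φ (Finsupp.linearCombination ℝ e x)
      rw [hx] at h1
      have h2 : ‖i (Finsupp.linearCombination ℝ e x)‖ ^ 2 = 0 := by
        have h3 := sq_nonneg ‖i (Finsupp.linearCombination ℝ e x)‖
        by_contra hne
        have h4 : 0 < ‖i (Finsupp.linearCombination ℝ e x)‖ ^ 2 := lt_of_le_of_ne h3 (Ne.symm hne)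
        have h5 := mul_pos hE0 h4
        linarith
      have h3 : i (Finsupp.linearCombination ℝ e x) = 0 := by
        rw [← norm_eq_zero]
        exact pow_eq_zero_iff (two_ne_zero) |>.1 h2
      have h4 : (i (Finsupp.linearCombination ℝ e x)) =
          Finsupp.linearCombination ℝ (fun m => i (e m)) x := by
        rw [Finsupp.linearCombination_apply, Finsupp.linearCombination_apply, Finsupp.sum,
          Finsupp.sum, map_sum]
        refine Finset.sum_congr rfl fun m _ => ?_
        rw [map_smul]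
      have hon : Orthonormal ℝ (fun m => i (e m)) := orthonormal_iff_ite.2 he
      rw [h4] at h3
      have h5 := linearIndependent_iff.1 hon.linearIndependent x h3
      exact h5
  · intro φ
    have _ : NeZero μ := ⟨hmu⟩
    refine integral_exp_pos ?_
    have h1 : Integrable (fun _ : M => (1 : ℝ)) μ := integrable_const 1
    have h2 := h1.bdd_mul (c := Real.exp ‖φ‖) (hwm φ).aestronglyMeasurable
      (Eventually.of_forall fun x => by
        rw [Real.norm_eq_abs]
        exact hwC φ x)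
    simpa using h2
  · intro φ ψ v
    rw [hb, hb, ← integral_const_mul]
    have e' : ∀ x, Real.exp ‖φ - ψ‖ * (Real.exp (ψ x) * (i v x * i v x)) =
        Real.exp ‖φ - ψ‖ * Real.exp (ψ x) * (i v x * i v x) := fun x => by ring
    simp_rw [e']
    refine mono_w (hwm φ) (hwC φ) (measurable_const.mul (hwm ψ))
      (C' := Real.exp ‖φ - ψ‖ * Real.exp ‖ψ‖) ?_ (fun x => ?_) (i v)
    · intro x
      show |Real.exp ‖φ - ψ‖ * Real.exp (ψ x)| ≤ _
      rw [abs_mul, abs_of_pos (Real.exp_pos ‖φ - ψ‖)]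
      exact mul_le_mul_of_nonneg_left (hwC ψ x) (Real.exp_pos _).le
    · show Real.exp (φ x) ≤ Real.exp ‖φ - ψ‖ * Real.exp (ψ x)
      rw [← Real.exp_add]
      apply Real.exp_le_exp.2
      have h1 := (le_abs_self _).trans (habs (φ - ψ) x)
      have h2 : (φ - ψ) x = φ x - ψ x := rfl
      linarith
  · intro h
    have hk' := hk h
    choose k hk' using hk'
    refine ⟨k, ?_, ?_, ?_⟩
    · intro φ u v
      rw [hk', hk']
      refine integral_congr_ae (Eventually.of_forall fun x => ?_)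
      simp only
      ring
    · intro φ v
      refine ⟨?_, ?_⟩
      · rw [hk']
        unfold kap
        refine integral_congr_ae (Eventually.of_forall fun x => ?_)
        simp only
        ring
      · have hm1 : ∀ x, |‖h‖ * Real.exp (φ x)| ≤ ‖h‖ * Real.exp ‖φ‖ := by
          intro x
          rw [abs_mul, abs_of_nonneg (norm_nonneg _)]
          exact mul_le_mul_of_nonneg_left (hwC φ x) (norm_nonneg _)
        have hm2 : ∀ x, |-(‖h‖ * Real.exp (φ x))| ≤ ‖h‖ * Real.exp ‖φ‖ := by
          intro x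
          rw [abs_neg]
          exact hm1 x
        have e' : ‖h‖ * b φ v v = ∫ x, ‖h‖ * Real.exp (φ x) * (i v x * i v x) ∂μ := by
          rw [hb, ← integral_const_mul]
          refine integral_congr_ae (Eventually.of_forall fun x => ?_)
          simp only
          ring
        have e2 : -(‖h‖ * b φ v v) = ∫ x, -(‖h‖ * Real.exp (φ x)) * (i v x * i v x) ∂μ := by
          rw [e', ← integral_neg]
          refine integral_congr_ae (Eventually.of_forall fun x => ?_)
          simp only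
          ring
        rw [abs_le]
        constructor
        · rw [e2, hk']
          refine mono_w (w := fun x => -(‖h‖ * Real.exp (φ x)))
            ((measurable_const.mul (hwm φ)).neg) hm2 (hkm h φ) (hkC h φ)
            (fun x => ?_) (i v)
          have h1 := neg_le_of_abs_le (habs h x)
          have h2 := mul_le_mul_of_nonneg_right h1 (Real.exp_pos (φ x)).le
          show -(‖h‖ * Real.exp (φ x)) ≤ h x * Real.exp (φ x)
          linarith
        · rw [e', hk']
          refine mono_w (hkm h φ) (hkC h φ) (measurable_const.mul (hwm φ)) hm1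
            (fun x => ?_) (i v)
          exact mul_le_mul_of_nonneg_right ((le_abs_self _).trans (habs h x)) (Real.exp_pos _).le
    · intro φ v τ
      rw [hb, hb, hk', ← integral_const_mul, ← integral_add (int_w (hwm φ) (hwC φ) (i v))
        ((int_w (hkm h φ) (hkC h φ) (i v)).const_mul τ)]
      refine integral_mono ((int_w (hwm φ) (hwC φ) (i v)).add
        ((int_w (hkm h φ) (hkC h φ) (i v)).const_mul τ))
        (int_w (hwm (φ + τ • h)) (hwC (φ + τ • h)) (i v)) fun x => ?_
      have h0 : (φ + τ • h) x = φ x + τ * h x := rfl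
      simp only [h0]
      have h1 : Real.exp (φ x) * (τ * h x + 1) ≤ Real.exp (φ x + τ * h x) := by
        rw [Real.exp_add]
        exact mul_le_mul_of_nonneg_left (Real.add_one_le_exp _) (Real.exp_pos _).le
      have h2 := mul_le_mul_of_nonneg_right h1 (mul_self_nonneg (i v x))
      linarith

end Pool.Agent.Y419.QR
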